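import Pool.Agent.helper60.AVK.Asm2

/-!
# MP_24e9c4_gt, Q1 (partial answer): the least volume of an arithmetic virtual knot

Let `Γ` be a torsion-free arithmetic subgroup of `PSL(2,ℂ)`, generated by its parabolic elements, with at least three cusps
(`IsClass Γ`).  Then the volume of `H3 / Γ` is at least the volume of `H3 / Gam0`, where `Gam0` is the principal congruence
subgroup of level `(1 + √-7)/2` of `PSL(2, O_7)`, with equality exactly if `Γ` is conjugate to `Gam0` or to its mirror image
`GamP π₇'` (level `(1 - √-7)/2`).  The class contains the groups of all arithmetic virtual knots of genus one (`IsVKGroup`), and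
`Gam0` and its mirror image are groups of virtual knots of genus one.  The minimum is between `5.333` and `5.334`.

The quotient `H3 / Gam0` is the complement of the virtual trefoil in the thickened torus (the magic manifold, of volume
`5.33349`: Thurston; Baker and Reid, Principal congruence link complements); this identification is not used.  The definitions
are in `Pool/Agent/helper60/AVK/Defs.lean` and, for `π₇'` and `GamP`, in `Pool/Agent/helper60/AVK/SpecE.lean`.

Proof.  (1) `Γ` preserves a lattice over the ring of integers `O` of an imaginary quadratic field; with the reduction theory of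
binary quadratic forms `(a, b, c)` one gets a normal form `Γ ≤ GT`.  (2) The cusp box above the cell of `ℤ + ℤ τ` is packed by `GT`:
volume at least `n a √|D| / 4`, `n` the index.  (3) Orders of finite subgroups divide `n`.  This settles `|D| ≥ 15` and `D = -8, -11`;
`D = -7`, `n = 6` is the case of equality.  (4) `D = -3, -4`: indices 12, 24 and 12 are excluded by three cusps (traces `2 - b c`,
`b c = 1, 2, 3`, give torsion).  (5) Uniqueness: classification of the actions of `PSL(2, O_7)` on six points in which torsion acts freely
and the translations have three orbits.  (6) The number: a fundamental domain of `PSL(2, O_7)` above the hexagonal cell.  (7) `Gam0` is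
the group of a virtual knot: generators and relations give surjectivity of the peripheral subgroups onto the quotient by the meridian;
injectivity by homomorphisms to `ℤ` which count the crossings with the lifts of a totally geodesic thrice punctured sphere.
-/

namespace Pool.Agent.Results.MP_24e9c4_gt.ArithmeticKnots

open Pool.Agent.helper60.AVK MeasureTheory

theorem conj_vol (Γ : Subgroup PS) (u : PS) (F F₀ : Set H3) (hF : IsFD Γ F) (hF₀ : IsFD Gam0 F₀)
    (h : conjG u Γ = Gam0 ∨ conjG u Γ = GamP π₇') : volume F = volume F₀ := by
  obtain ⟨F', hF', hv⟩ := a_CONJV Γ u F hF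
  rw [← hv]
  rcases h with h | h
  · rw [h] at hF'
    exact le_antisymm (a_MIN Gam0 a_G0X F₀ F' hF₀ hF') (a_MIN Gam0 a_G0X F' F₀ hF' hF₀)
  · rw [h] at hF'
    exact a_EQV.2 F' F₀ hF' hF₀

/-- The volume of `Gam0` is between `5.333` and `5.334`; every group of the class (torsion-free, arithmetic, generated by parabolic
elements, at least three cusps) has a fundamental domain, of volume at least that of `Gam0`, with equality exactly for the conjugates of
`Gam0` and of its mirror image; the groups of arithmetic virtual knots of genus one are in the class, and `Gam0` and its mirror image are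
arithmetic groups of virtual knots of genus one. -/
theorem result :
    (∀ F₀ : Set H3, IsFD Gam0 F₀ → ENNReal.ofReal (5333 / 1000) ≤ volume F₀ ∧ volume F₀ ≤ ENNReal.ofReal (5334 / 1000)) ∧
    (∀ Γ : Subgroup PS, IsClass Γ → (∃ F : Set H3, MeasurableSet F ∧ IsFD Γ F) ∧
      ∀ F F₀ : Set H3, IsFD Γ F → IsFD Gam0 F₀ → volume F₀ ≤ volume F ∧
        (volume F = volume F₀ ↔ ∃ u : PS, conjG u Γ = Gam0 ∨ conjG u Γ = GamP π₇')) ∧
    (∀ Γ : Subgroup PS, IsVKGroup Γ → IsArith Γ → IsClass Γ) ∧
    (IsVKGroup Gam0 ∧ IsArith Gam0 ∧ IsVKGroup (GamP π₇') ∧ IsArith (GamP π₇')) :=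
  ⟨a_V0N, fun Γ h => ⟨a_FDX Γ h, fun F F₀ hF hF₀ => ⟨a_MIN Γ h F F₀ hF hF₀, a_UQF Γ h F F₀ hF hF₀,
    fun ⟨u, hu⟩ => conj_vol Γ u F F₀ hF hF₀ hu⟩⟩, a_VKC, a_FVK π₇ (Or.inl rfl), a_G0X.arith, a_FVK π₇' (Or.inr rfl), a_EQV.1.arith⟩

end Pool.Agent.Results.MP_24e9c4_gt.ArithmeticKnots
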